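import Mathlib
import Pool.Agent.W_MP_711e27_co.Defs
import Pool.Agent.W_MP_711e27_co.Main
import Pool.Agent.W_MP_711e27_co.Asymp

set_option autoImplicit false

open Pool.Agent.W_MP_711e27_co

namespace Pool.Agent.Results.MP_711e27_co.LinearBoundFails

/-- There is an absolute constant `c₀ > 0` such that for every `d > 0` and all sufficiently large
`n` there is a planar graph `H` on `n` vertices with at most `d * n / log n` pairwise
vertex-disjoint cycles, and a graph `G` without `H` minor whose treewidth is at least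
`c₀ * n * log n`. So `f(H) ≥ c₀ * n * log n`, which is more than `c * n` for each constant `c`
when `n` is large. -/
theorem result :
    ∃ c₀ : ℝ, 0 < c₀ ∧ ∀ d : ℝ, 0 < d → ∃ n₀ : ℕ, ∀ n : ℕ, n₀ ≤ n →
      ∃ H : SimpleGraph (Fin n), IsPlanar H ∧
        (cyclePacking H : ℝ) ≤ d * n / Real.log n ∧
        ∃ (N : ℕ) (G : SimpleGraph (Fin N)), ¬ IsMinor H G ∧
          c₀ * n * Real.log n ≤ treewidth G := by
  refine ⟨1 / 3000, by norm_num, fun d hd => ?_⟩
  obtain ⟨n₀, h⟩ := sqrt_props d hd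
  refine ⟨n₀, fun n hn => ?_⟩
  obtain ⟨h1, h2, h3, h4⟩ := h n hn
  obtain ⟨H, hpl, hcp, N, G, hG, htw⟩ := general (Nat.sqrt n) n h1 h2
  refine ⟨H, hpl, ?_, N, G, hG, ?_⟩
  · have : (cyclePacking H : ℝ) ≤ 2 * (Nat.sqrt n : ℝ) := by exact_mod_cast hcp
    exact this.trans h3
  · refine le_trans ?_ htw
    have h5 : (n : ℝ) * (Real.log n / 3) ≤ n * Real.log (Nat.sqrt n) :=
      mul_le_mul_of_nonneg_left h4 (Nat.cast_nonneg _)
    linarith

end Pool.Agent.Results.MP_711e27_co.LinearBoundFails
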